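import Mathlib

/-!
# A countably categorical Jordan nilring which is not solvable

The ring `J` is the additive group `F₂³` with the product in which the three basis vectors
`e₁, e₂, e₃` have square zero and `eᵢ eⱼ = eⱼ eᵢ = eₖ` for `{i, j, k} = {1, 2, 3}` (the vector
product). It is commutative, every element has square zero, so the Jordan identity holds and `J` is
a nilring, and `J J = J`. As `J` is finite, its complete theory has exactly one model up to
isomorphism.
-/

set_option autoImplicit false

namespace Pool.Agent.Results.MP_bd8d3e_al.JordanNilringNotSolvable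

open FirstOrder Language

/-- The function symbols of the language `{+, -, 0, ·}`. -/
inductive RingFn : ℕ → Type
  | zero : RingFn 0
  | neg : RingFn 1
  | add : RingFn 2
  | mul : RingFn 2

/-- The first-order language `{+, -, 0, ·}`. -/
def ringLang : FirstOrder.Language := ⟨RingFn, fun _ => Empty⟩

/-- A ring (not assumed associative or unital) as a structure for the language `{+, -, 0, ·}`. -/
@[reducible] def ringStructure (A : Type) [NonUnitalNonAssocRing A] : ringLang.Structure A where
  funMap := fun {n} (f : RingFn n) =>
    match n, f with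
    | _, RingFn.zero => fun _ => 0
    | _, RingFn.neg => fun x => -(x 0)
    | _, RingFn.add => fun x => x 0 + x 1
    | _, RingFn.mul => fun x => x 0 * x 1
  RelMap := fun {_} r _ => Empty.elim r

/-- `A` is countably categorical: the complete theory of `A` in the language `{+, -, 0, ·}` has
exactly one countable model up to isomorphism. -/
def CountablyCategorical (A : Type) [NonUnitalNonAssocRing A] : Prop :=
  letI := ringStructure A
  (∃ M : (ringLang.completeTheory A).ModelType.{0, 0, 0}, Countable M) ∧
    ∀ M N : (ringLang.completeTheory A).ModelType.{0, 0, 0}, Countable M → Countable N →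
      Nonempty (M ≃[ringLang] N)

/-- `A` is a Jordan ring: `xy = yx` and `(x²y)x = x²(yx)`. -/
def IsJordanRing (A : Type) [NonUnitalNonAssocRing A] : Prop :=
  ∀ x y : A, x * y = y * x ∧ ((x * x) * y) * x = (x * x) * (y * x)

/-- The right-normed power `x^(n+1)`: `x^1 = x` and `x^(n+1) = x^n x`. -/
def rpow {A : Type} [NonUnitalNonAssocRing A] (x : A) : ℕ → A
  | 0 => x
  | n + 1 => rpow x n * x

/-- `A` is a nilring: for every `x` some power `x^n`, `n ≥ 1`, is zero. -/
def IsNilring (A : Type) [NonUnitalNonAssocRing A] : Prop :=
  ∀ x : A, ∃ n : ℕ, rpow x n = 0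

/-- The derived powers `A^(0) = A`, `A^(k+1) = A^(k) A^(k)`. -/
def derivedPower (A : Type) [NonUnitalNonAssocRing A] : ℕ → AddSubgroup A
  | 0 => ⊤
  | k + 1 => AddSubgroup.closure {z : A | ∃ u ∈ derivedPower A k, ∃ v ∈ derivedPower A k, u * v = z}

/-- `A` is solvable: some derived power is zero. -/
def IsSolvableRing (A : Type) [NonUnitalNonAssocRing A] : Prop :=
  ∃ k : ℕ, derivedPower A k = ⊥

/-! ### The ring -/

/-- The underlying set `F₂³` of the ring `J`. -/
@[ext] structure J where
  /-- first coordinate -/
  a : ZMod 2
  /-- second coordinate -/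
  b : ZMod 2
  /-- third coordinate -/
  c : ZMod 2
  deriving DecidableEq

namespace J

/-- `J` is `F₂³`. -/
def equiv : J ≃ ZMod 2 × ZMod 2 × ZMod 2 where
  toFun x := (x.a, x.b, x.c)
  invFun x := ⟨x.1, x.2.1, x.2.2⟩
  left_inv _ := rfl
  right_inv _ := rfl

instance : Fintype J := Fintype.ofEquiv _ equiv.symm

instance : Zero J := ⟨⟨0, 0, 0⟩⟩
instance : Add J := ⟨fun x y => ⟨x.a + y.a, x.b + y.b, x.c + y.c⟩⟩
instance : Neg J := ⟨fun x => ⟨-x.a, -x.b, -x.c⟩⟩
instance : Mul J := ⟨fun x y =>
  ⟨x.b * y.c + x.c * y.b, x.a * y.c + x.c * y.a, x.a * y.b + x.b * y.a⟩⟩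

@[simp] theorem zero_a : (0 : J).a = 0 := rfl
@[simp] theorem zero_b : (0 : J).b = 0 := rfl
@[simp] theorem zero_c : (0 : J).c = 0 := rfl
@[simp] theorem add_a (x y : J) : (x + y).a = x.a + y.a := rfl
@[simp] theorem add_b (x y : J) : (x + y).b = x.b + y.b := rfl
@[simp] theorem add_c (x y : J) : (x + y).c = x.c + y.c := rfl
@[simp] theorem neg_a (x : J) : (-x).a = -x.a := rfl
@[simp] theorem neg_b (x : J) : (-x).b = -x.b := rfl
@[simp] theorem neg_c (x : J) : (-x).c = -x.c := rfl
@[simp] theorem mul_a (x y : J) : (x * y).a = x.b * y.c + x.c * y.b := rfl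
@[simp] theorem mul_b (x y : J) : (x * y).b = x.a * y.c + x.c * y.a := rfl
@[simp] theorem mul_c (x y : J) : (x * y).c = x.a * y.b + x.b * y.a := rfl

instance : NonUnitalNonAssocRing J where
  add_assoc x y z := by ext <;> simp [add_assoc]
  zero_add x := by ext <;> simp
  add_zero x := by ext <;> simp
  add_comm x y := by ext <;> simp [add_comm]
  neg_add_cancel x := by ext <;> exact neg_add_cancel _
  left_distrib x y z := by ext <;> simp <;> ring
  right_distrib x y z := by ext <;> simp <;> ring
  zero_mul x := by ext <;> simp
  mul_zero x := by ext <;> simp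
  nsmul := nsmulRec
  zsmul := zsmulRec

theorem mul_comm' (x y : J) : x * y = y * x := by
  ext <;> simp <;> ring

theorem mul_self (x : J) : x * x = 0 := by
  have h2 : ∀ t : ZMod 2, t + t = 0 := by decide
  ext
  · simp only [mul_a, zero_a]; rw [mul_comm x.c x.b]; exact h2 _
  · simp only [mul_b, zero_b]; rw [mul_comm x.c x.a]; exact h2 _
  · simp only [mul_c, zero_c]; rw [mul_comm x.b x.a]; exact h2 _

end J

/-! ### Finite structures are determined by their complete theory -/

/-- A model of the complete theory of a finite structure is isomorphic to it. -/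
theorem nonempty_equiv_of_finite {L : FirstOrder.Language} {M N : Type} [L.Structure M]
    [L.Structure N] [Finite M] (h : M ≅[L] N) : Nonempty (M ≃[L] N) := by
  classical
  have hN : Finite N := by
    rw [← not_infinite_iff_finite, ← h.infinite_iff, not_infinite_iff_finite]
    infer_instance
  -- there is `b : M → N` realizing the complete type of the identity
  obtain ⟨b, hb⟩ : ∃ b : M → N, ∀ φ : L.Formula M, φ.Realize (id : M → M) → φ.Realize b := by
    by_contra hcon
    push Not at hcon
    choose φ h1 h2 using hcon
    have hJ : M ⊨ (Formula.iExs M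
        ((Formula.iInf (fun b : M → N => φ b)).relabel (Sum.inr : M → Empty ⊕ M)) :
          L.Sentence) := by
      rw [Sentence.Realize, Formula.realize_iExs]
      refine ⟨id, ?_⟩
      rw [Formula.realize_relabel, Formula.realize_iInf]
      intro b
      exact h1 b
    rw [h.realize_sentence, Sentence.Realize, Formula.realize_iExs] at hJ
    obtain ⟨i, hi⟩ := hJ
    rw [Formula.realize_relabel, Formula.realize_iInf] at hi
    exact h2 i (hi i)
  have hb' : ∀ φ : L.Formula M, φ.Realize (id : M → M) ↔ φ.Realize b := by
    intro φ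
    refine ⟨hb φ, fun hφ => ?_⟩
    by_contra hn
    exact (hb φ.not hn) hφ
  have key : ∀ ⦃n⦄ (φ : L.Formula (Fin n)) (x : Fin n → M), φ.Realize (b ∘ x) ↔ φ.Realize x := by
    intro n φ x
    have := hb' (φ.relabel x)
    rw [Formula.realize_relabel, Formula.realize_relabel] at this
    exact this.symm
  let e : M ↪ₑ[L] N := ⟨b, key⟩
  have hinj : Function.Injective b := e.injective
  have hsurj : Function.Surjective b := by
    have hcard : Nat.card N ≤ Nat.card M := by
      by_contra hlt
      push Not at hlt
      have hge : N ⊨ (Sentence.cardGe L (Nat.card M + 1)) := by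
        rw [Sentence.realize_cardGe]
        have : Cardinal.mk N = (Nat.card N : Cardinal) := (Nat.cast_card).symm
        rw [this]
        exact_mod_cast hlt
      rw [← h.realize_sentence, Sentence.realize_cardGe] at hge
      have : Cardinal.mk M = (Nat.card M : Cardinal) := (Nat.cast_card).symm
      rw [this] at hge
      have : Nat.card M + 1 ≤ Nat.card M := by exact_mod_cast hge
      omega
    have := Function.Injective.bijective_of_nat_card_le hinj hcard
    exact this.2
  exact ⟨{ toEquiv := Equiv.ofBijective b ⟨hinj, hsurj⟩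
           map_fun' := fun f x => e.map_fun f x
           map_rel' := fun r x => e.map_rel r x }⟩

/-- Every finite ring is countably categorical. -/
theorem countablyCategorical_of_finite (A : Type) [NonUnitalNonAssocRing A] [Finite A] :
    CountablyCategorical A := by
  let _ := ringStructure A
  have hne : Nonempty A := ⟨0⟩
  have hiso : ∀ M : (ringLang.completeTheory A).ModelType.{0, 0, 0},
      Nonempty (A ≃[ringLang] M) := by
    intro M
    apply nonempty_equiv_of_finite
    rw [elementarilyEquivalent_iff]
    intro φ
    exact (realize_iff_of_model_completeTheory A M φ).symm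
  refine ⟨⟨Theory.ModelType.of (ringLang.completeTheory A) A, ?_⟩, ?_⟩
  · show Countable A
    infer_instance
  · intro M N _ _
    obtain ⟨f⟩ := hiso M
    obtain ⟨g⟩ := hiso N
    exact ⟨g.comp f.symm⟩

/-- All derived powers of `J` are the whole ring. -/
theorem derivedPower_J (k : ℕ) : derivedPower J k = ⊤ := by
  induction k with
  | zero => rfl
  | succ k ih =>
    rw [derivedPower, ih, eq_top_iff]
    intro x _
    have hmul : ∀ u v : J, u * v ∈ AddSubgroup.closure
        {z : J | ∃ u ∈ (⊤ : AddSubgroup J), ∃ v ∈ (⊤ : AddSubgroup J), u * v = z} :=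
      fun u v => AddSubgroup.subset_closure ⟨u, trivial, v, trivial, rfl⟩
    have hx : x = (⟨0, 1, 0⟩ : J) * ⟨0, 0, x.a⟩ + ((⟨1, 0, 0⟩ : J) * ⟨0, 0, x.b⟩ +
        (⟨1, 0, 0⟩ : J) * ⟨0, x.c, 0⟩) := by
      ext <;> simp
    rw [hx]
    exact add_mem (hmul _ _) (add_mem (hmul _ _) (hmul _ _))

/-- There is a countably categorical Jordan nilring which is not solvable. It can be chosen finite
(with eight elements), with `xx = 0` for all `x`, with all derived powers equal to the whole ring,
and also categorical in `ℵ₀` in the sense of Mathlib. -/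
theorem result :
    ∃ (A : Type) (_ : NonUnitalNonAssocRing A),
      IsJordanRing A ∧ IsNilring A ∧ CountablyCategorical A ∧ ¬ IsSolvableRing A ∧
      Nat.card A = 8 ∧ (∀ x : A, x * x = 0) ∧ (∀ k, derivedPower A k = ⊤) ∧
      (letI := ringStructure A
       Cardinal.aleph0.{0}.Categorical (ringLang.completeTheory A)) := by
  refine ⟨J, inferInstance, ?_, ?_, countablyCategorical_of_finite J, ?_, ?_, J.mul_self,
    derivedPower_J, ?_⟩
  · intro x y
    refine ⟨J.mul_comm' x y, ?_⟩
    rw [J.mul_self x, zero_mul, zero_mul, zero_mul]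
  · intro x
    exact ⟨1, by show x * x = 0; exact J.mul_self x⟩
  · rintro ⟨k, hk⟩
    rw [derivedPower_J k] at hk
    have h1 : (⟨1, 0, 0⟩ : J) ∈ (⊤ : AddSubgroup J) := trivial
    rw [hk, AddSubgroup.mem_bot] at h1
    exact absurd (congrArg J.a h1) (by decide)
  · rw [Nat.card_congr J.equiv]
    simp
  · let _ := ringStructure J
    intro M N hM hN
    have h := (countablyCategorical_of_finite J).2 M N
    have hc : Countable M := by rw [← Cardinal.mk_le_aleph0_iff, hM]
    have hc' : Countable N := by rw [← Cardinal.mk_le_aleph0_iff, hN]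
    exact h hc hc'

end Pool.Agent.Results.MP_bd8d3e_al.JordanNilringNotSolvable
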